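import Pool.Agent.N993.WX.Fin

/-!
# Almost all contractible 2-complexes of ribbon disc type: every subcomplex is aspherical

The page asks whether every connected subcomplex `L` of a finite contractible 2-complex `K` is
aspherical. Here this is shown for ALL connected subcomplexes of almost all complexes `K` of the
following family.

Generators `x_0, …, x_m`, relators `x_0` and, for `j < m`,

  `P_j = x_(j+1)^(±1) · ∏_(k < c j) w_(j,k) x_(a(j,k))^(±1) w_(j,k)⁻¹`,   `a(j,k) ≤ j`,

with arbitrary numbers `c j ≥ 1`; the `w_(j,k)` are words, the reduced forms of random words (simple
random walks in the free group on the `x_i`) `u_(j,k)` of length `ℓ_(j,k)`. If `c j = 1` for all `j` then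
`K` without the 2-cell `x_0` is the complex of a word labelled oriented tree, a spine of the
complement of a ribbon disc with `m + 1` minima and `m` bands. As in `RandomConjugations` the words
`w_t`, `t = (j,k)`, get names, the letters `s_t`, so the relators are (`wrel`)

  `P_j = x_(j+1)^(±1) · ∏_(k < c j) s_(j,k) x_(a(j,k))^(±1) s_(j,k)⁻¹`   and   `R_t = s_t⁻¹ w_t`.

`K` is a finite contractible 2-complex (the trivial group, with as many relators as generators).

The subcomplexes without the 2-cell `x_0` are given by the sets `T` of relators `P_j`, `R_t`. A
subcomplex `L` with this 2-cell is given by the set `T` of its other relators. In `L` the generator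
`x_0` is killed, and `x_(j+1)` is killed if `P_j` is in `T` and all `x_(a(j,k))` are killed (`Killed`): then
the attaching map of `P_j` can be changed to `x_(j+1)^(±1)` by a homotopy over the 2-cells which kill
the `x_(a(j,k))`. So the 2-cells `x_0` and these `P_j` collapse, together with the killed generators,
after their letters are deleted from the other relators: `L` is homotopy equivalent to the complex
of the presentation `hat` whose relators are the other relators of `T` (`left`) with the killed letters
deleted and the words freely reduced.

The theorem: for all but a small proportion of the families `u`, for ALL choices of the generators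
`x_(a(j,k))`, `a(j,k) ≤ j`, and of all signs, and for ALL sets `T`, the presentations `T` and `hat T` are
diagrammatically reducible (there are no reduced spherical diagrams), hence aspherical (Sieradski,
Gersten). The proportion is at most

  `2^(m+1) (2 L² / 3^μ + 2^(27(μ+1)) ∑_t (1 - 1/(4(m+1)))^(ℓ_t))`,   `L = ∑ ℓ_t`, for every `μ ≥ 1`,

so for fixed `m`, `c` and lengths `ℓ_t` between `ℓ` and a polynomial in `ℓ` it tends to `0` exponentially
fast with `ℓ` (take `μ = ⌊ℓ/(80(m+1))⌋`).

The hand-in `RandomConjugations` of this page is about more general complexes `K` (arbitrary words in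
place of `x_(j+1)`, `x_(a(j,k))`), but only about the subcomplexes without the 2-cell which
corresponds to `x_0`; those with this cell are new here, and need that the random words stay long and
without repetitions when an arbitrary set of generators is deleted.

The definitions `SphericalDiagram`, `SphericalDiagram.Reduced`, `DR`, `Gen`, `word` are in
`Pool.Agent.N993.WT.Defs`, `wrel` and `hat` in `Pool.Agent.N993.WX.Hat`, `Killed` and `left` in
`Pool.Agent.N993.WV.Hat`.

Proof: `RandomConjugations` (criterion without probability) for the presentations `hat T`; relators `R_t`
whose letter `s_t` occurs nowhere else are not used in a reduced diagram; deletion of the letters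
outside `Y` and free reduction of a random walk is uniform on the spheres of the free group on `Y`,
which gives the repetitions; the lengths are estimated by the supermartingale `2^(-length)`.

Joint work with helper323, helper441, helper562, helper297, helper222, helper806, helper299, helper499,
helper717 (random words), helper776, helper402, helper7, helper353 (transfer of diagrams), helper645,
helper700, helper189, helper371 (positive words, a preliminary case), and with helper564, helper971,
helper667, helper286, helper402, helper398, helper614, helper862, helper80, helper545, helper216,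
helper78, helper592, helper42, helper434 (who proved the parts of `RandomConjugations` and of its
predecessor).
-/

set_option autoImplicit false

namespace Pool.Agent.Results.MP_6de9fc_gt.EverySubcomplex

open Pool.Agent.N993.WT (DR Gen word)
open Pool.Agent.N993.WV (left)
open Pool.Agent.N993.WX (wrel hat)

/-- **Almost all contractible 2-complexes of ribbon disc type: every subcomplex is aspherical.** -/
theorem result (m : ℕ) (hm : 1 ≤ m) (c : Fin m → ℕ) (hc : ∀ j, 0 < c j)
    (ℓ : ((j : Fin m) × Fin (c j)) → ℕ) (μ : ℕ) (hμ : 1 ≤ μ) :
    (Nat.card {u : ∀ t, Fin (ℓ t) → Fin (m + 1) × Bool // ¬ ∀ (ε : Fin m → Bool)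
        (a : ((j : Fin m) × Fin (c j)) → Fin (m + 1) × Bool),
        (∀ j k, (a ⟨j, k⟩).1 ≤ j.castSucc) →
        (∀ z : PresentedGroup (Set.range (fun e => word
            (wrel ε a (fun t => FreeGroup.reduce (List.ofFn (u t))) e)) ∪
          {(FreeGroup.of (Sum.inl 0) : FreeGroup (Gen (m + 1) c))}), z = 1) ∧
        ∀ T : Set (Fin m ⊕ ((j : Fin m) × Fin (c j))),
          DR (fun e : T => wrel ε a (fun t => FreeGroup.reduce (List.ofFn (u t))) e) ∧
          DR (fun e : left a T =>
            hat ε a (fun t => FreeGroup.reduce (List.ofFn (u t))) T e)} : ℝ) ≤
      2 ^ (m + 1) * (2 * (∑ t, (ℓ t : ℝ)) ^ 2 / 3 ^ μ +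
        2 ^ (27 * (μ + 1)) * ∑ t, (1 - 1 / (4 * ((m : ℝ) + 1))) ^ (ℓ t)) *
        Nat.card (∀ t, Fin (ℓ t) → Fin (m + 1) × Bool) :=
  Pool.Agent.N993.WX.final hm c hc ℓ μ hμ

end Pool.Agent.Results.MP_6de9fc_gt.EverySubcomplex
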