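import Pool.Agent.N819.LT.Ori

/-!
# Every labelled tree has an orientation with an aspherical complex and a mapping torus as group

Definitions (`Pool.Agent.N819.LT.Defs`, `.MT`, `.Main`, and `Pool.Agent.TH625.LOG.Core`, `.LI`, `.Main` of
the starting library):

* `LTree V E`: a finite labelled tree with vertices `V` and edges `E` (ends `a e`, `b e`; label `lab e`,
  an arbitrary vertex); `x.log o`: the labelled oriented tree given by the orientation `o`, with initial
  vertices `ini e`; `L.rel e = x_ini x_lab x_ter⁻¹ x_lab⁻¹`, `L.G` the group with generators `V` and
  relators `L.rel e`, i.e. the fundamental group of the 2-complex `K(L)` with one vertex, 1-cells `V`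
  and 2-cells `E` (Wirtinger presentations of ribbon disc complements);
* `Conn p q`: the graph on `V` with the edges `{p e, q e}`, `e : E`, is connected (it has one vertex more
  than edges, so it is then a tree);
* `sub L S`: only the 2-cells of `S ⊆ E` are kept (a subcomplex with all the 1-cells);
* `Good L`: closed diagrams in the universal covering are reducible (`Folds`), the boundary operator
  `C₂ → C₁` of the universal covering is injective, i.e. the complex is aspherical, and the fundamental
  group is locally indicable;
* `MT φ`: the mapping torus `⟨X, t | t⁻¹ w t = φ w⟩` of an endomorphism `φ` of the free group on `X`;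
  `IsMT L r`: for an endomorphism `φ` of the free group on `V \ {r}` there is an isomorphism of `L.G`
  with `MT φ` which maps `x_r` to `t` and `x_v` to `t v`;
* `L.ContractibleWith v`: `K(L) ∪ f`, `f` a 2-cell attached along the 1-cell `v`, is contractible.
-/

set_option autoImplicit false

namespace Pool.Agent.Results.MP_6de9fc_gt.OddlyManyOrientations

open Pool.Agent.TH625.LOG Pool.Agent.N819.LT

/-- Let `x` be a labelled tree. For every set `J` of edges and all orientations `c e` of the edges of `J`
the number of the extensions to an orientation for which the edges `{initial vertex of e, label of e}`
form a tree is odd if and only if the edges `{initial vertex of e, label of e}`, `e ∈ J`, and the edges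
`{a e, b e}`, `e ∉ J`, form a tree; in particular it is odd if `J` is empty. For these orientations all
subcomplexes of the complex are diagrammatically reducible and aspherical (with locally indicable
fundamental groups), and the fundamental group of the complex is the mapping torus of an endomorphism
of a free group of rank `|V| - 1`. The complex is a subcomplex of a contractible 2-complex with one
more 2-cell. -/
theorem result (V E : Type) [Fintype V] [Fintype E] [DecidableEq V] [DecidableEq E]
    (x : LTree V E) :
    (∀ (J : Finset E) (c : E → Bool),
      Odd {o : E → Bool | (∀ e ∈ J, o e = c e) ∧ Conn (x.log o).ini x.lab}.ncard ↔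
        Conn (fun e => if e ∈ J then (x.log c).ini e else x.a e)
          (fun e => if e ∈ J then x.lab e else x.b e)) ∧
    Odd {o : E → Bool | Conn (x.log o).ini x.lab}.ncard ∧
    (∀ o : E → Bool, Conn (x.log o).ini x.lab →
      (∀ S : Set E, Good (sub (x.log o) S)) ∧ ∀ r : V, IsMT (x.log o) r) ∧
    ∀ (o : E → Bool) (v : V), (x.log o).ContractibleWith v :=
  ⟨fun J c => parity' x J c, parity0 x, fun o ho => good_ori x o ho,
    fun o v => contractibleWith (x.log o) (x.log_conn o) x.card v⟩

end Pool.Agent.Results.MP_6de9fc_gt.OddlyManyOrientations
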