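import Pool.Agent.N993.WU.Fin

/-!
# Random modifications of contractible 2-complexes

The page asks whether the connected subcomplexes `L` of finite contractible 2-complexes `K` are
aspherical.

Let `⟨x_0, …, x_(n-1) | W, U_0, …, U_(m-1)⟩`, `m = n - 1`, be ANY balanced presentation of the trivial
group, that is, any finite contractible 2-complex `K'` with one vertex, with one of its 2-cells (the
one along `W`) singled out. Multiply the other relators by conjugates `g v g⁻¹` of words `v` which
are consequences of `W` (for example `v = W^(±1)`) or, more generally, of `W` and of the `U_i` that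
come before:

  `P_j = U_j · ∏_(k < c j) g_(j,k) v_(j,k) g_(j,k)⁻¹`,   `v_(j,k) ∈ ⟨⟨W, U_i (i < j)⟩⟩`.

Then `⟨x_0, …, x_(n-1) | W, P_0, …, P_(m-1)⟩` is again a balanced presentation of the trivial group, so
its 2-complex `K` is finite and contractible (if all `v` are conjugates of `W^(±1)` then `K` is obtained
from `K'` by Andrews-Curtis moves). Here the words `g_(j,k)` get names, the letters `s_(j,k)`: the
relators are `U_j ∏ s_(j,k) v_(j,k) s_(j,k)⁻¹` and `s_(j,k)⁻¹ g_(j,k)` (this is an elementary
expansion, the presentation `rel U v g`), and `K` is the 2-complex with the 2-cell `W` in addition.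

(1) Suppose that the reduced words `g t` have no repetitions of length `μ` (`NoRep`): no subword of
length `μ` occurs at two different places, and no subword of length `μ` is the inverse of another
one. Then for ALL families `U`, `v` of nonempty cyclically reduced words of length at most `lam`, all
subcomplexes of `rel U v g` are diagrammatically reducible: there are no reduced spherical diagrams.
The numbers `c j ≥ 1` of conjugates and the lengths `ℓ t` of the words are arbitrary, with
`9 (3 μ + lam + 2) ≤ ℓ t`. (No condition on the group is needed here.)

(2) All but a small proportion of the families `g` satisfy the condition of (1): the proportion of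
the others is at most `2 (∑ ℓ)² / (2n - 1)^μ`; with (1): for `C` words of the same length `ℓ` at most
`2 C² ℓ² / (2n - 1)^(ℓ/27 - lam/3 - 2)`.

(3) If `v_(j,k) ∈ ⟨⟨W, U_i (i < j)⟩⟩` for all `j`, `k` and `W` and the `U_i` normally generate the free
group, then the presentation `rel U v g` with the additional relator `W` is a presentation of the
trivial group. For `n = m + 1` it has as many relators as generators, so its 2-complex `K` is
contractible, and the complexes of (1) are the subcomplexes of `K` without the 2-cell `W`.

Special cases: (a) `U_j = x_(j+1)^(±1)`, `W = x_0`, `v_(j,k) = x_a^(±1)` with `a ≤ j` and `lam = 1`; if in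
addition `c j = 1` for all `j` these are the word labelled oriented trees, the presentations of the
complements of ribbon discs in the 4-ball with `n` minima and `n - 1` bands, and the `g` are the words
read along the bands. (b) `U_j = x_(j+1)`, `W = x_0`, `v_(j,k) = x_0^(±1)`: here the subcomplexes
which contain the 2-cell `W` are homotopy equivalent to graphs, so ALL connected subcomplexes of `K`
are aspherical.

Diagrammatic reducibility is a well known condition which implies that the 2-complex is aspherical
(Sieradski, Gersten). The definitions `SphericalDiagram`, `SphericalDiagram.Reduced`, `DR`, `RW`,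
`Gen`, `word` are in `Pool.Agent.N993.WT.Defs`, `CR`, `emb`, `rel` in `Pool.Agent.N993.WU.Defs` and
`NoRep` in `Pool.Agent.N993.WU.Rep`.

The results `AlmostAllTrees`, `LocalSparsity` and `ReducedOrientedTrees` of the starting library are
about labelled oriented trees with labels of length one and a number of vertices that tends to
infinity; here the number of generators is fixed (or arbitrary) and the words are long.

Proof: in a reduced spherical diagram the 2-cells at the letters `s` are merged; the words `g` and
their inverses have no common subwords of length `μ` at different places, in particular no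
subwords of length `μ + lam` with a period at most `lam`, so every side `g` of a merged cell meets at
least nine vertices of degree at least three, and the Euler characteristic is negative.

Joint work with helper564, helper971, helper667, helper286, helper402, helper398, helper614, and, for
the case of words `U`, `v` of length one, from which the proofs are adapted, and for the estimate
(2), helper862, helper80, helper545, helper216, helper78, helper592, helper42, helper434.
-/

set_option autoImplicit false

namespace Pool.Agent.Results.MP_6de9fc_gt.RandomConjugations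

open Pool.Agent.N993.WT (DR RW Gen word)
open Pool.Agent.N993.WU

/-- **Random modifications of contractible 2-complexes.** -/
theorem result :
    (∀ (n m : ℕ) (c : Fin m → ℕ), (∀ j, 0 < c j) →
      ∀ (ℓ : ((j : Fin m) × Fin (c j)) → ℕ) (μ lam : ℕ), 1 ≤ μ →
      (∀ t, 9 * (3 * μ + lam + 2) ≤ ℓ t) → ∀ g : ∀ t, RW n (ℓ t), NoRep g μ →
      ∀ (U : Fin m → List (Fin n × Bool)) (v : ((j : Fin m) × Fin (c j)) → List (Fin n × Bool)),
      (∀ j, CR (U j) ∧ (U j).length ≤ lam) → (∀ t, CR (v t) ∧ (v t).length ≤ lam) →
      ∀ T : Set (Fin m ⊕ ((j : Fin m) × Fin (c j))), DR (fun e : T => rel U v g e)) ∧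
    (∀ (n m : ℕ), 2 ≤ n → ∀ (c : Fin m → ℕ), (∀ j, 0 < c j) →
      ∀ (ℓ : ((j : Fin m) × Fin (c j)) → ℕ) (μ : ℕ), 1 ≤ μ →
      (Nat.card {g : ∀ t, RW n (ℓ t) // ¬ NoRep g μ} : ℝ) ≤
        2 * (∑ t, (ℓ t : ℝ)) ^ 2 / (2 * n - 1) ^ μ * Nat.card (∀ t, RW n (ℓ t))) ∧
    (∀ (n m : ℕ) (c : Fin m → ℕ) (W : FreeGroup (Fin n)) (U : Fin m → List (Fin n × Bool))
      (v : ((j : Fin m) × Fin (c j)) → List (Fin n × Bool)) (ℓ : ((j : Fin m) × Fin (c j)) → ℕ)
      (g : ∀ t, RW n (ℓ t)),
      (∀ j k, word (v ⟨j, k⟩) ∈ Subgroup.normalClosure ({W} ∪ {x | ∃ i < j, x = word (U i)})) →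
      Subgroup.normalClosure ({W} ∪ Set.range fun i => word (U i)) = ⊤ →
      ∀ z : PresentedGroup (Set.range (fun e => word (rel U v g e)) ∪
        {(FreeGroup.map Sum.inl W : FreeGroup (Gen n c))}), z = 1) :=
  ⟨fun _ _ _ hc ℓ μ lam hμ hℓ g hg U v hU hv T =>
      deterministic s_dis s_norm hc ℓ μ lam hμ hℓ g hg U v hU hv T,
    fun _ _ hn _ hc ℓ μ hμ => rare hn hc ℓ μ hμ, s_triv⟩

end Pool.Agent.Results.MP_6de9fc_gt.RandomConjugations
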